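import Pool.Agent.H477.O.Stm6

set_option autoImplicit false

/-!
# Project Q (helper477), part QRE: one-sided bound of the logarithmic derivative (helper370)
-/

open Complex Filter Topology Metric Set

namespace Pool.Agent.H370.QRE

open Pool.Agent.H477.O

theorem ball_re {c w : ℂ} {r : ℝ} (h : w ∈ closedBall c r) :
    c.re - r ≤ w.re ∧ w.re ≤ c.re + r ∧ |w.im - c.im| ≤ r := by
  rw [mem_closedBall, dist_eq_norm] at h
  have h1 := (Complex.abs_re_le_norm (w - c)).trans h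
  have h2 := (Complex.abs_im_le_norm (w - c)).trans h
  rw [Complex.sub_re, abs_le] at h1
  rw [Complex.sub_im] at h2
  exact ⟨by linarith [h1.1], by linarith [h1.2], h2⟩

theorem qre (h1 : S_QLAN) (h2 : S_PFAR) (h3 : S_PCR) : S_QRE := by
  intro a K j R V ha hR hV
  have hj : (0 : ℝ) ≤ j := Nat.cast_nonneg j
  have hR0 : 0 ≤ R := by linarith
  obtain ⟨K1, ℓ1, hK1, hℓ1, far⟩ := h2 a K j R R V hR0 hR0 (by linarith)
  obtain ⟨K2, hK2, cr⟩ := h3 a K j R R V hR0 hR0 (by linarith)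
  obtain ⟨s, hs⟩ : ∃ s : ℝ, s = a + j + 4 := ⟨_, rfl⟩
  have hs4 : 4 < s := by linarith
  obtain ⟨α, hα⟩ : ∃ α : ℝ, α = Real.log (s / (s - 1)) := ⟨_, rfl⟩
  obtain ⟨β, hβ⟩ : ∃ β : ℝ, β = Real.log ((s - 1) / (s - (s - 1))) := ⟨_, rfl⟩
  have hα0 : 0 < α := by
    rw [hα]
    apply Real.log_pos
    rw [lt_div_iff₀ (by linarith)]
    linarith
  have hβ0 : 0 ≤ β := by
    rw [hβ]
    apply Real.log_nonneg
    rw [show s - (s - 1) = 1 by ring, div_one]
    linarith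
  obtain ⟨κ, hκ⟩ : ∃ κ : ℝ, κ = K2 + K1 := ⟨_, rfl⟩
  have hκ0 : 0 < κ := by linarith
  obtain ⟨D, hD⟩ : ∃ D : ℝ, D = 2 * (κ + κ / α * β + 1) * (s - 2) := ⟨_, rfl⟩
  have hD0 : 0 ≤ D := by
    rw [hD]
    have : 0 ≤ κ / α * β := by positivity
    have h5 : 0 ≤ s - 2 := by linarith
    positivity
  refine ⟨K1 + D, max ℓ1 3, by linarith, le_max_right _ _, ?_⟩
  intro X M ℓ y hX hℓ b hb hba hZ z hz1 hz2 hz3
  have l1 : ℓ1 ≤ ℓ := (le_max_left _ _).trans hℓ
  have l3 : 3 ≤ ℓ := (le_max_right _ _).trans hℓ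
  have l4 : 1 ≤ ℓ := by linarith
  have hℓ0 : 0 < ℓ := by linarith
  rw [← hs] at hz3
  rw [← hs] at hR
  by_cases hc : 1 / 2 + a + j ≤ z.re
  · obtain ⟨g1, g2, -, -⟩ := far X M ℓ y hX l1 z hc hz2 (by linarith)
    have g3 := (abs_le.1 ((Complex.abs_re_le_norm _).trans g2)).1
    rw [Complex.sub_re, Complex.ofReal_re] at g3
    have g4 : K1 ≤ K1 * ℓ := le_mul_of_one_le_right (by linarith) l4
    have g5 : 0 ≤ D * ℓ := mul_nonneg hD0 hℓ0.le
    linarith
  push Not at hc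
  have hfd : Differentiable ℂ (iteratedDeriv j X) :=
    (hX.diff.contDiff (n := ((j + 1 : ℕ) : WithTop ℕ∞))).differentiable_iteratedDeriv j
      (by exact_mod_cast Nat.lt_succ_self j)
  obtain ⟨F, hF⟩ : ∃ F : ℂ → ℂ, F = iteratedDeriv j X := ⟨_, rfl⟩
  rw [← hF] at hfd hZ ⊢
  obtain ⟨c, hcd⟩ : ∃ c : ℂ, c = ⟨1 / 2 + (a + j + 1), z.im⟩ := ⟨_, rfl⟩
  have cre : c.re = 1 / 2 + (a + j + 1) := by rw [hcd]
  have cim : c.im = z.im := by rw [hcd]
  have hcfar := far X M ℓ y hX l1 c (by rw [cre]; linarith) (by rw [cre]; linarith)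
    (by rw [cim]; linarith)
  rw [← hF] at hcfar
  have hFc : F c ≠ 0 := hcfar.1
  have hlow : M * Real.exp (-(K1 * ℓ)) ≤ ‖F c‖ := by
    refine le_trans ?_ hcfar.2.2.1
    apply mul_le_mul_of_nonneg_left _ hX.hM.le
    apply Real.exp_le_exp.mpr
    have e1 : 0 ≤ ℓ * (c.re - 1 / 2) := mul_nonneg hℓ0.le (by rw [cre]; linarith)
    have e2 : K1 ≤ K1 * ℓ := le_mul_of_one_le_right (by linarith) l4
    linarith
  have hFc0 : 0 < ‖F c‖ := norm_pos_iff.2 hFc
  obtain ⟨f, hf⟩ : ∃ f : ℂ → ℂ, f = fun w => (F c)⁻¹ * F w := ⟨_, rfl⟩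
  have hfdd : Differentiable ℂ f := by
    rw [hf]
    exact hfd.const_mul _
  have hfc : f c = 1 := by
    rw [hf]
    exact inv_mul_cancel₀ hFc
  have im_b : ∀ w : ℂ, |w.im - c.im| ≤ s → |w.im - y| ≤ R := by
    intro w hw
    rw [cim] at hw
    calc |w.im - y| = |(w.im - z.im) + (z.im - y)| := by ring_nf
      _ ≤ |w.im - z.im| + |z.im - y| := abs_add_le _ _
      _ ≤ R := by linarith
  have hbd : ∀ w ∈ closedBall c s, ‖f w‖ ≤ Real.exp (κ * ℓ) := by
    intro w hw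
    obtain ⟨w1, w2, w3⟩ := ball_re hw
    rw [cre] at w1 w2
    have w5 := cr X M ℓ y hX l4 w (by rw [abs_le]; constructor <;> linarith) (im_b w w3)
    rw [← hF] at w5
    rw [hf]
    show ‖(F c)⁻¹ * F w‖ ≤ _
    rw [norm_mul, norm_inv, inv_mul_le_iff₀ hFc0]
    refine w5.trans ?_
    calc M * Real.exp (K2 * ℓ) = (M * Real.exp (-(K1 * ℓ))) * Real.exp (κ * ℓ) := by
          rw [mul_assoc, ← Real.exp_add, hκ]
          ring_nf
      _ ≤ ‖F c‖ * Real.exp (κ * ℓ) := mul_le_mul_of_nonneg_right hlow (Real.exp_pos _).le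
  have hFz : F z ≠ 0 := hZ z hz1 hz2 (by linarith)
  have hzin : z ∈ closedBall c (s - 3) := by
    rw [mem_closedBall, dist_eq_norm]
    have h5 : z - c = ((z.re - c.re : ℝ) : ℂ) := by
      apply Complex.ext
      · simp
      · simp [cim]
    rw [h5, Complex.norm_real, Real.norm_eq_abs, cre, abs_of_nonpos (by linarith)]
    linarith
  have key := h1 f c (s - 1) (s - 2) (s - 3) s (Real.exp (κ * ℓ)) (by linarith) (by linarith)
    (by linarith) (by linarith) (by linarith) (Real.one_le_exp (mul_nonneg hκ0.le hℓ0.le))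
    (by rw [hfc, norm_one]; exact Real.one_le_exp (mul_nonneg hκ0.le hℓ0.le))
    (fun w _ => hfdd.analyticAt w) (by rw [hfc]; exact one_ne_zero) hbd z hzin
    (by
      rw [hf]
      exact mul_ne_zero (inv_ne_zero hFc) hFz)
    (by
      intro ρ hρ hρ0
      obtain ⟨w1, w2, w3⟩ := ball_re hρ
      rw [cre] at w1 w2
      by_contra hcon
      push Not at hcon
      have hFρ : F ρ ≠ 0 := hZ ρ (by linarith) (by linarith) (im_b ρ (by linarith))
      rw [hf] at hρ0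
      exact mul_ne_zero (inv_ne_zero hFc) hFρ hρ0)
  rw [hfc, norm_one, div_one, Real.log_exp, ← hα, ← hβ, show s - 1 - (s - 2) = 1 by ring,
    show s - 2 - (s - 3) = 1 by ring, div_one, div_one] at key
  have hld : logDeriv f z = logDeriv F z := by
    rw [hf]
    exact logDeriv_const_mul z (F c)⁻¹ (inv_ne_zero hFc)
  rw [hld] at key
  have e1 : 2 * (κ * ℓ + κ * ℓ / α * β + 1) * (s - 2) ≤ D * ℓ := by
    rw [hD]
    have e2 : κ * ℓ + κ * ℓ / α * β + 1 ≤ (κ + κ / α * β + 1) * ℓ := by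
      have e3 : κ * ℓ / α * β = κ / α * β * ℓ := by ring
      rw [e3]
      linarith
    have e4 : 2 * (κ * ℓ + κ * ℓ / α * β + 1) * (s - 2) ≤
        2 * ((κ + κ / α * β + 1) * ℓ) * (s - 2) :=
      mul_le_mul_of_nonneg_right (by linarith) (by linarith)
    linarith
  have e5 : 0 ≤ K1 * ℓ := mul_nonneg (by linarith) hℓ0.le
  linarith

end Pool.Agent.H370.QRE
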